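import Pool.Agent.Y613.RA.Canon

/-!
# Branching programs are simulated by machines which read the cells in a fixed order
-/

set_option autoImplicit false

namespace Pool.Agent.Y613.RA

open Finset Pool.Agent.Y613.PJ

/-- A nondeterministic branching program of width `w` with variables from `X`: the nodes are the pairs
`(t, q)` with `t < len` and `q < w`; the node `(t, q)` queries the variable `query t q` (or none);
`step t q β q'` says that there is an edge with the label `β` from the node `(t, q)` to the node
`(t + 1, q')`. -/
structure Program (w : ℕ) (X : Type) where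
  /-- the length -/
  len : ℕ
  /-- the variable of a node -/
  query : ℕ → Fin w → Option X
  /-- initial nodes -/
  start : Fin w → Prop
  /-- edges -/
  step : ℕ → Fin w → Bool → Fin w → Prop
  /-- accepting nodes -/
  accept : Fin w → Prop

namespace Program

variable {w : ℕ} {X : Type}

/-- the bit seen at a node; `false` if no variable is queried -/
def bit (P : Program w X) (z : X → Bool) (t : ℕ) (q : Fin w) : Bool :=
  match P.query t q with
  | some c => z c
  | none => false

/-- there is an accepting path -/
def Accepts (P : Program w X) (z : X → Bool) : Prop :=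
  ∃ r : ℕ → Fin w, P.start (r 0) ∧ P.accept (r P.len) ∧
    ∀ t < P.len, P.step t (r t) (P.bit z t (r t)) (r (t + 1))

open Classical in
/-- each variable is queried at most at `p` nodes -/
def ReadAtMost (P : Program w X) (p : ℕ) : Prop :=
  ∀ c, #((Finset.range P.len ×ˢ (Finset.univ : Finset (Fin w))).filter
    fun s => P.query s.1 s.2 = some c) ≤ p

/-- the machine: in the time `(w + 1) t + a` the state `a` is treated -/
def mach (P : Program w X) : Machine (Fin w ⊕ Fin w) where
  start s := ∃ q, s = Sum.inl q ∧ P.start q
  accept s := ∃ q, s = Sum.inl q ∧ P.accept q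
  step _ T s β s' :=
    if T % (w + 1) = w then (∃ q, s = Sum.inr q ∧ s' = Sum.inl q) else
      (match s with
        | Sum.inl q => if (q : ℕ) = T % (w + 1) then ∃ q', s' = Sum.inr q' ∧
            P.step (T / (w + 1)) q β q' else s' = s
        | Sum.inr _ => s' = s)

/-- the cell which is read at a time -/
def cell (P : Program w X) (T : ℕ) : Option X :=
  if h : T % (w + 1) < w then P.query (T / (w + 1)) ⟨T % (w + 1), h⟩ else none

theorem div_eq (w t a : ℕ) (ha : a < w + 1) : ((w + 1) * t + a) / (w + 1) = t := by
  rw [Nat.mul_add_div (Nat.succ_pos w), Nat.div_eq_of_lt ha, add_zero]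

theorem mod_eq (w t a : ℕ) (ha : a < w + 1) : ((w + 1) * t + a) % (w + 1) = a := by
  rw [Nat.mul_add_mod, Nat.mod_eq_of_lt ha]

theorem bits_cell (P : Program w X) (z : X → Bool) (t : ℕ) (q : Fin w) :
    bits P.cell z ((w + 1) * t + q) = P.bit z t q := by
  have hq : (q : ℕ) < w + 1 := by omega
  unfold bits cell bit
  rw [mod_eq w t q hq, div_eq w t q hq]
  simp only [dif_pos q.2]
  rfl

theorem accepts_iff (P : Program w X) (z : X → Bool) :
    P.Accepts z ↔ Acc P.mach P.cell ((w + 1) * P.len) z := by
  constructor
  · rintro ⟨r, h1, h2, h3⟩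
    let r' : ℕ → Fin w ⊕ Fin w := fun T =>
      if T % (w + 1) ≤ (r (T / (w + 1)) : ℕ) then Sum.inl (r (T / (w + 1)))
      else Sum.inr (r (T / (w + 1) + 1))
    have hr' : ∀ t a, a < w + 1 → r' ((w + 1) * t + a) =
        if a ≤ (r t : ℕ) then Sum.inl (r t) else Sum.inr (r (t + 1)) := by
      intro t a ha
      simp only [r', mod_eq w t a ha, div_eq w t a ha]
    have hr0 : ∀ t, r' ((w + 1) * t) = Sum.inl (r t) := by
      intro t
      have := hr' t 0 (Nat.succ_pos w)
      rw [add_zero] at this
      rw [this, if_pos (Nat.zero_le _)]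
    refine ⟨Sum.inl (r 0), Sum.inl (r P.len), ⟨_, rfl, h1⟩, ⟨_, rfl, h2⟩, r', ?_, ?_, ?_⟩
    · have := hr0 0
      rwa [mul_zero] at this
    · exact hr0 P.len
    · intro T _ hT
      obtain ⟨t, a, ha, rfl⟩ : ∃ t a, a < w + 1 ∧ T = (w + 1) * t + a :=
        ⟨T / (w + 1), T % (w + 1), Nat.mod_lt _ (Nat.succ_pos w), (Nat.div_add_mod _ _).symm⟩
      have ht : t < P.len := by
        by_contra h
        have := Nat.mul_le_mul_left (w + 1) (not_lt.1 h)
        omega
      simp only [mach, id, mod_eq w t a ha, div_eq w t a ha]
      rw [hr' t a ha]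
      rcases eq_or_lt_of_le (Nat.lt_succ_iff.1 ha) with rfl | haw
      · rw [if_pos rfl]
        have h4 : ¬ a ≤ (r t : ℕ) := by
          have := (r t).2
          omega
        rw [if_neg h4]
        refine ⟨r (t + 1), rfl, ?_⟩
        have := hr0 (t + 1)
        rwa [mul_add, mul_one, ← add_assoc] at this
      · rw [if_neg haw.ne]
        have hnext : r' ((w + 1) * t + a + 1) =
            if a + 1 ≤ (r t : ℕ) then Sum.inl (r t) else Sum.inr (r (t + 1)) := by
          rw [add_assoc]
          exact hr' t (a + 1) (by omega)
        rw [hnext]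
        rcases lt_trichotomy a (r t : ℕ) with h5 | h5 | h5
        · rw [if_pos h5.le, if_pos (Nat.succ_le_of_lt h5)]
          simp only [if_neg h5.ne']
        · rw [if_pos h5.le, if_neg (by omega)]
          simp only [if_pos h5.symm]
          refine ⟨r (t + 1), rfl, ?_⟩
          have h6 := h3 t ht
          rw [← bits_cell, ← h5] at h6
          exact h6
        · rw [if_neg (by omega), if_neg (by omega)]
  · rintro ⟨s, s', ⟨q₀, rfl, h1⟩, ⟨q₁, rfl, h2⟩, r', h3, h4, h5⟩
    -- one period
    have hper : ∀ t, t < P.len → ∀ q, r' ((w + 1) * t) = Sum.inl q →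
        ∃ q', P.step t q (P.bit z t q) q' ∧ r' ((w + 1) * (t + 1)) = Sum.inl q' := by
      intro t ht q hq
      have hstep : ∀ a, a < w + 1 → P.mach.step 0 ((w + 1) * t + a) (r' ((w + 1) * t + a))
          (bits P.cell z ((w + 1) * t + a)) (r' ((w + 1) * t + (a + 1))) := by
        intro a ha
        have h6 : (w + 1) * (t + 1) ≤ (w + 1) * P.len := Nat.mul_le_mul_left _ ht
        rw [mul_add, mul_one] at h6
        exact h5 _ (Nat.zero_le _) (by omega)
      have hleft : ∀ a, a ≤ (q : ℕ) → r' ((w + 1) * t + a) = Sum.inl q := by
        intro a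
        induction a with
        | zero => intro _; exact hq
        | succ a ih =>
          intro ha
          have h6 := hstep a (by have := q.2; omega)
          simp only [mach, mod_eq w t a (by have := q.2; omega),
            div_eq w t a (by have := q.2; omega)] at h6
          rw [if_neg (by have := q.2; omega), ih (by omega)] at h6
          simp only [if_neg (show ¬ (q : ℕ) = a by omega)] at h6
          exact h6
      have h7 := hstep q (by have := q.2; omega)
      have hqw : (q : ℕ) < w + 1 := by have := q.2; omega
      rw [bits_cell] at h7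
      simp only [mach, mod_eq w t q hqw, div_eq w t q hqw] at h7
      rw [if_neg (by have := q.2; omega), hleft q (le_refl _)] at h7
      simp only [if_true] at h7
      obtain ⟨q', h8, h9⟩ := h7
      refine ⟨q', h9, ?_⟩
      have hright : ∀ a, (q : ℕ) + 1 + a ≤ w → r' ((w + 1) * t + (q + 1 + a)) = Sum.inr q' := by
        intro a
        induction a with
        | zero => intro _; exact h8
        | succ a ih =>
          intro ha
          have h6 := hstep (q + 1 + a) (by omega)
          simp only [mach, mod_eq w t (q + 1 + a) (by omega),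
            div_eq w t (q + 1 + a) (by omega)] at h6
          rw [if_neg (by omega), ih (by omega)] at h6
          exact h6
      have hw : r' ((w + 1) * t + w) = Sum.inr q' := by
        have h10 := hright (w - (q + 1)) (by have := q.2; omega)
        have h11 : (q : ℕ) + 1 + (w - (q + 1)) = w := by have := q.2; omega
        rwa [h11] at h10
      have h12 := hstep w (by omega)
      simp only [mach, mod_eq w t w (by omega), if_true] at h12
      obtain ⟨q'', h13, h14⟩ := h12
      rw [hw] at h13
      rw [mul_add, mul_one, h14, ← Sum.inr_injective h13]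
    have hall : ∀ t, t ≤ P.len → ∃ q, r' ((w + 1) * t) = Sum.inl q := by
      intro t
      induction t with
      | zero => intro _; exact ⟨q₀, by rw [mul_zero]; exact h3⟩
      | succ t ih =>
        intro ht
        obtain ⟨q, hq⟩ := ih (by omega)
        obtain ⟨q', -, h⟩ := hper t (by omega) q hq
        exact ⟨q', h⟩
    classical
    let r : ℕ → Fin w := fun t => if h : ∃ q, r' ((w + 1) * t) = Sum.inl q then h.choose else q₀
    have hr : ∀ t, t ≤ P.len → r' ((w + 1) * t) = Sum.inl (r t) := by
      intro t ht
      have h := hall t ht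
      simp only [r, dif_pos h]
      exact h.choose_spec
    refine ⟨r, ?_, ?_, ?_⟩
    · have h6 := hr 0 (Nat.zero_le _)
      rw [mul_zero, h3] at h6
      rw [← Sum.inl_injective h6]
      exact h1
    · have h6 := hr P.len (le_refl _)
      rw [h4] at h6
      rw [← Sum.inl_injective h6]
      exact h2
    · intro t ht
      obtain ⟨q', h6, h7⟩ := hper t ht (r t) (hr t ht.le)
      have h8 := hr (t + 1) ht
      rw [h7] at h8
      rw [← Sum.inl_injective h8]
      exact h6

theorem occ_le (P : Program w X) {p : ℕ} (hp : P.ReadAtMost p) {T : ℕ}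
    (hT : T < (w + 1) * P.len) (c : X) (hc : P.cell T = some c) : occ P.cell T ≤ p := by
  classical
  refine le_trans ?_ (hp c)
  unfold occ
  by_cases hw : w = 0
  · subst hw
    unfold cell at hc
    split_ifs at hc with h
    exact absurd h (Nat.not_lt_zero _)
  have hw' : 0 < w := Nat.pos_of_ne_zero hw
  refine Finset.card_le_card_of_injOn (fun T => (T / (w + 1), if h : T % (w + 1) < w then
    ⟨T % (w + 1), h⟩ else ⟨0, hw'⟩)) ?_ ?_
  · intro T' hT'
    have hT' := Finset.mem_filter.1 (Finset.mem_coe.1 hT')
    have h1 := Finset.mem_range.1 hT'.1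
    have h2 := hT'.2
    rw [hc] at h2
    rw [Finset.mem_coe, Finset.mem_filter, Finset.mem_product]
    unfold cell at h2
    split_ifs at h2 with h
    refine ⟨⟨Finset.mem_range.2 ?_, Finset.mem_univ _⟩, ?_⟩
    · exact Nat.div_lt_of_lt_mul (h1.trans hT)
    · simp only [dif_pos h]
      exact h2
  · intro T₁ hT₁ T₂ hT₂ h12
    have hT₁ := (Finset.mem_filter.1 (Finset.mem_coe.1 hT₁)).2
    have hT₂ := (Finset.mem_filter.1 (Finset.mem_coe.1 hT₂)).2
    rw [hc] at hT₁ hT₂
    unfold cell at hT₁ hT₂
    split_ifs at hT₁ with g1
    split_ifs at hT₂ with g2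
    simp only [dif_pos g1, dif_pos g2, Prod.mk.injEq, Fin.mk.injEq] at h12
    rw [← Nat.div_add_mod T₁ (w + 1), ← Nat.div_add_mod T₂ (w + 1), h12.1, h12.2]

end Program

end Pool.Agent.Y613.RA
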