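import Pool.Agent.Y613.RA.Gen
import Pool.Agent.Helper850.RC.P_ramseyP

/-!
# Machines which read cells in an arbitrary order: homogeneous sets of coordinates
-/

set_option autoImplicit false

namespace Pool.Agent.Y613.RA

open Finset Pool.Agent.Y613.PJ

variable {Q X : Type}

open Classical in
/-- the number of the earlier times at which the same cell is read -/
noncomputable def occ (cell : ℕ → Option X) (t : ℕ) : ℕ :=
  #((Finset.range t).filter fun s => cell s = cell t)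

theorem occ_lt {cell : ℕ → Option X} {t t' : ℕ} (h : cell t = cell t') (htt : t < t') :
    occ cell t < occ cell t' := by
  classical
  unfold occ
  rw [h]
  apply Finset.card_lt_card
  rw [Finset.ssubset_iff]
  refine ⟨t, ?_, ?_⟩
  · simp
  · intro u hu
    rcases Finset.mem_insert.1 hu with rfl | hu
    · exact Finset.mem_filter.2 ⟨Finset.mem_range.2 htt, h⟩
    · rw [Finset.mem_filter, Finset.mem_range] at hu ⊢
      exact ⟨hu.1.trans htt, hu.2⟩

theorem occ_inj {cell : ℕ → Option X} {t t' : ℕ} (h : cell t = cell t')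
    (ho : occ cell t = occ cell t') : t = t' := by
  rcases lt_trichotomy t t' with h1 | h1 | h1
  · exact absurd ho (occ_lt h h1).ne
  · exact h1
  · exact absurd ho (occ_lt h.symm h1).ne'

/-- the read number `i` of the cell `x ∘ u` comes before the read number `k` of the cell `x ∘ v` -/
def Before {d N : ℕ} (cell : ℕ → Option (Fin d → Fin N)) (n : ℕ) (u v : Fin d → Fin (2 * d))
    (i k : ℕ) (x : Fin (2 * d) → ℕ) : Prop :=
  ∃ t t', t < t' ∧ t < n ∧ t' < n ∧ (∃ c, cell t = some c ∧ ∀ a, ((c a : Fin N) : ℕ) = x (u a)) ∧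
    occ cell t = i ∧ (∃ c, cell t' = some c ∧ ∀ a, ((c a : Fin N) : ℕ) = x (v a)) ∧
      occ cell t' = k

/-- the set `T` of coordinates is homogeneous: the order of the reads of the cells depends only on
the order of their coordinates -/
def Hom {d N : ℕ} (p : ℕ) (cell : ℕ → Option (Fin d → Fin N)) (n : ℕ) (T : Finset ℕ) : Prop :=
  ∀ (u v : Fin d → Fin (2 * d)) (i k : ℕ) (x y : Fin (2 * d) → ℕ), i ≤ p → k ≤ p →
    StrictMono x → StrictMono y → (∀ l, x l ∈ T) → (∀ l, y l ∈ T) →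
      Before cell n u v i k x → Before cell n u v i k y

theorem exists_hom (d : ℕ) : ∃ C : ℕ, ∀ p : ℕ, ∃ a : ℕ, ∀ (N K n : ℕ)
    (cell : ℕ → Option (Fin d → Fin N)), RC.tow C (a * (K + 1)) ≤ N →
      ∃ T ⊆ Finset.range N, #T = K ∧ Hom p cell n T := by
  obtain ⟨C, hC⟩ := RC.ramseyP (2 * d)
  refine ⟨C, fun p => ?_⟩
  obtain ⟨a, ha⟩ := hC ((Fin d → Fin (2 * d)) × (Fin d → Fin (2 * d)) × Fin (p + 1) × Fin (p + 1))
  refine ⟨a, fun N K n cell hN => ?_⟩
  obtain ⟨T, hT, hTK, h⟩ := ha K (Finset.range N) (by rw [Finset.card_range]; exact hN)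
    (fun s x => Before cell n s.1 s.2.1 s.2.2.1 s.2.2.2 x)
  refine ⟨T, hT, hTK, ?_⟩
  intro u v i k x y hi hk hx hy hxT hyT hb
  rcases h (u, v, ⟨i, Nat.lt_succ_of_le hi⟩, ⟨k, Nat.lt_succ_of_le hk⟩) with h1 | h1
  · exact h1 y hy hyT
  · exact absurd hb (h1 x hx hxT)

/-- representations of three cells by increasing tuples -/
theorem exists_tuples {d N : ℕ} (T Top : Finset ℕ) (hTop : Top ⊆ T) (hTopc : 2 * d ≤ #Top)
    (c c' y : Fin d → Fin N) (hc : ∀ a, ((c a : Fin N) : ℕ) ∈ T)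
    (hc' : ∀ a, ((c' a : Fin N) : ℕ) ∈ T) (hy : ∀ a, ((y a : Fin N) : ℕ) ∈ T)
    (hcTop : ∀ a, ∀ x ∈ Top, ((c a : Fin N) : ℕ) < x)
    (hcTop' : ∀ a, ∀ x ∈ Top, ((c' a : Fin N) : ℕ) < x)
    (hpat : ∀ a b, c a < c b ↔ c' a < c' b)
    (hsep : (∀ a b, c a < y b ∧ c' a < y b) ∨ (∀ a b, y b < c a ∧ y b < c' a)) :
    ∃ (x x' : Fin (2 * d) → ℕ) (u v : Fin d → Fin (2 * d)), StrictMono x ∧ StrictMono x' ∧
      (∀ l, x l ∈ T) ∧ (∀ l, x' l ∈ T) ∧ (∀ a, ((c a : Fin N) : ℕ) = x (u a)) ∧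
        (∀ a, ((c' a : Fin N) : ℕ) = x' (u a)) ∧ (∀ a, ((y a : Fin N) : ℕ) = x (v a)) ∧
          (∀ a, ((y a : Fin N) : ℕ) = x' (v a)) := by
  classical
  set Z₁ : Finset ℕ := Finset.univ.image fun a : Fin d => ((c a : Fin N) : ℕ) with hZ₁
  set Z₂ : Finset ℕ := Finset.univ.image fun a : Fin d => ((y a : Fin N) : ℕ) with hZ₂
  have hcard : #(Z₁ ∪ Z₂) ≤ 2 * d := by
    refine (Finset.card_union_le _ _).trans ?_
    have h1 : #Z₁ ≤ d := Finset.card_image_le.trans (by simp)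
    have h2 : #Z₂ ≤ d := Finset.card_image_le.trans (by simp)
    omega
  have hcard' : 2 * d ≤ #((Z₁ ∪ Z₂) ∪ Top) :=
    hTopc.trans (Finset.card_le_card Finset.subset_union_right)
  obtain ⟨Z, hZ1, hZ2, hZc⟩ := Finset.exists_subsuperset_card_eq
    (Finset.subset_union_left (s₁ := Z₁ ∪ Z₂) (s₂ := Top)) hcard hcard'
  have hmem : ∀ m ∈ Z, (∃ a, ((c a : Fin N) : ℕ) = m) ∨ (∃ a, ((y a : Fin N) : ℕ) = m) ∨
      m ∈ Top := by
    intro m hm
    rcases Finset.mem_union.1 (hZ2 hm) with h | h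
    · rcases Finset.mem_union.1 h with h | h
      · obtain ⟨a, -, h⟩ := Finset.mem_image.1 h
        exact Or.inl ⟨a, h⟩
      · obtain ⟨a, -, h⟩ := Finset.mem_image.1 h
        exact Or.inr (Or.inl ⟨a, h⟩)
    · exact Or.inr (Or.inr h)
  have hcZ : ∀ a, ((c a : Fin N) : ℕ) ∈ Z := fun a => hZ1 (Finset.mem_union_left _
    (Finset.mem_image.2 ⟨a, Finset.mem_univ _, rfl⟩))
  have hyZ : ∀ a, ((y a : Fin N) : ℕ) ∈ Z := fun a => hZ1 (Finset.mem_union_right _
    (Finset.mem_image.2 ⟨a, Finset.mem_univ _, rfl⟩))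
  have hrange : ∀ m ∈ Z, ∃ i, Z.orderEmbOfFin hZc i = m := by
    intro m hm
    have := Finset.range_orderEmbOfFin Z hZc
    have h2 : m ∈ Set.range (Z.orderEmbOfFin hZc) := by rw [this]; exact hm
    exact h2
  have hpat' : ∀ a b, c a = c b → c' a = c' b := by
    intro a b hab
    have h1 := hpat a b
    have h2 := hpat b a
    rw [hab] at h1 h2
    simp only [lt_self_iff_false, false_iff, not_lt] at h1 h2
    exact le_antisymm h2 h1
  let ψ : ℕ → ℕ := fun m => if h : ∃ a, ((c a : Fin N) : ℕ) = m then (c' h.choose : ℕ) else m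
  have hψc : ∀ a, ψ (c a) = c' a := by
    intro a
    have hex : ∃ a', ((c a' : Fin N) : ℕ) = c a := ⟨a, rfl⟩
    simp only [ψ, dif_pos hex]
    rw [hpat' _ _ (Fin.ext hex.choose_spec)]
  have hψn : ∀ m, (∀ a, ((c a : Fin N) : ℕ) ≠ m) → ψ m = m := by
    intro m hm
    simp only [ψ]
    rw [dif_neg]
    rintro ⟨a, ha⟩
    exact hm a ha
  have hψy : ∀ b, ψ (y b) = y b := by
    intro b
    apply hψn
    intro a ha
    have ha' : c a = y b := Fin.ext ha
    rcases hsep with h | h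
    · exact absurd (h a b).1 (by rw [ha']; exact lt_irrefl _)
    · exact absurd (h a b).1 (by rw [ha']; exact lt_irrefl _)
  have hψTop : ∀ m ∈ Top, ψ m = m := fun m hm => hψn m fun a ha => by
    have := hcTop a m hm
    omega
  have hψlt : ∀ m ∈ Z, ∀ m' ∈ Z, m < m' → ψ m < ψ m' := by
    intro m hm m' hm' hlt
    rcases hmem m hm with ⟨a, rfl⟩ | h1
    · rw [hψc]
      rcases hmem m' hm' with ⟨b, rfl⟩ | ⟨b, rfl⟩ | h2
      · rw [hψc]
        exact Fin.lt_def.1 ((hpat a b).1 (Fin.lt_def.2 hlt))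
      · rw [hψy]
        rcases hsep with h | h
        · exact Fin.lt_def.1 (h a b).2
        · exact absurd (Fin.lt_def.1 (h a b).1) (by omega)
      · rw [hψTop _ h2]
        exact hcTop' a _ h2
    · have hm1 : ψ m = m := by
        rcases h1 with ⟨a, rfl⟩ | h1
        · exact hψy a
        · exact hψTop m h1
      rw [hm1]
      rcases hmem m' hm' with ⟨b, rfl⟩ | h2
      · rw [hψc]
        rcases h1 with ⟨a, rfl⟩ | h1
        · rcases hsep with h | h
          · exact absurd (Fin.lt_def.1 (h b a).1) (by omega)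
          · exact Fin.lt_def.1 (h b a).2
        · have := hcTop b m h1
          omega
      · rcases h2 with ⟨b, rfl⟩ | h2
        · rw [hψy]; exact hlt
        · rw [hψTop _ h2]; exact hlt
  have hψT : ∀ m ∈ Z, ψ m ∈ T := by
    intro m hm
    rcases hmem m hm with ⟨a, rfl⟩ | ⟨a, rfl⟩ | h1
    · rw [hψc]; exact hc' a
    · rw [hψy]; exact hy a
    · rw [hψTop _ h1]; exact hTop h1
  choose u hu using fun a => hrange _ (hcZ a)
  choose v hv using fun a => hrange _ (hyZ a)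
  have hZT : ∀ m ∈ Z, m ∈ T := by
    intro m hm
    rcases hmem m hm with ⟨a, rfl⟩ | ⟨a, rfl⟩ | h1
    · exact hc a
    · exact hy a
    · exact hTop h1
  have hin : ∀ i, Z.orderEmbOfFin hZc i ∈ Z := fun i => Finset.orderEmbOfFin_mem Z hZc i
  refine ⟨fun i => Z.orderEmbOfFin hZc i, fun i => ψ (Z.orderEmbOfFin hZc i), u, v, ?_, ?_,
    fun i => hZT _ (hin i), fun i => hψT _ (hin i), fun a => (hu a).symm, fun a => ?_,
    fun a => (hv a).symm, fun a => ?_⟩
  · exact (Z.orderEmbOfFin hZc).strictMono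
  · intro i j hij
    exact hψlt _ (hin i) _ (hin j) ((Z.orderEmbOfFin hZc).strictMono hij)
  · simp only [hu a, hψc]
  · simp only [hv a, hψy]

/-- reads of cells with coordinates in a homogeneous set -/
theorem canon {d N p : ℕ} {cell : ℕ → Option (Fin d → Fin N)} {n : ℕ} {T Top : Finset ℕ}
    (hom : Hom p cell n T) (hTop : Top ⊆ T) (hTopc : 2 * d ≤ #Top)
    {c c' y : Fin d → Fin N} (hc : ∀ a, ((c a : Fin N) : ℕ) ∈ T)
    (hc' : ∀ a, ((c' a : Fin N) : ℕ) ∈ T) (hy : ∀ a, ((y a : Fin N) : ℕ) ∈ T)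
    (hcTop : ∀ a, ∀ x ∈ Top, ((c a : Fin N) : ℕ) < x)
    (hcTop' : ∀ a, ∀ x ∈ Top, ((c' a : Fin N) : ℕ) < x)
    (hpat : ∀ a b, c a < c b ↔ c' a < c' b)
    (hsep : (∀ a b, c a < y b ∧ c' a < y b) ∨ (∀ a b, y b < c a ∧ y b < c' a))
    {t t' s : ℕ} (ht : t < n) (hs : s < n) (h1 : cell t = some c) (h2 : cell t' = some c')
    (h3 : occ cell t = occ cell t') (h4 : cell s = some y) (hot : occ cell t ≤ p)
    (hos : occ cell s ≤ p) : (t < s → t' < s) ∧ (s < t → s < t') := by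
  obtain ⟨x, x', u, v, hx, hx', hxT, hxT', e1, e2, e3, e4⟩ :=
    exists_tuples T Top hTop hTopc c c' y hc hc' hy hcTop hcTop' hpat hsep
  have huniq : ∀ {t₁ t₂ : ℕ} {c₁ c₂ : Fin d → Fin N}, cell t₁ = some c₁ → cell t₂ = some c₂ →
      (∀ a, ((c₁ a : Fin N) : ℕ) = c₂ a) → occ cell t₁ = occ cell t₂ → t₁ = t₂ := by
    intro t₁ t₂ c₁ c₂ g1 g2 g3 g4
    have : c₁ = c₂ := funext fun a => Fin.ext (g3 a)
    subst this
    exact occ_inj (g1.trans g2.symm) g4
  constructor
  · intro hlt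
    obtain ⟨t₁, s₁, f1, -, -, ⟨c₁, f2, f3⟩, f4, ⟨y₁, f5, f6⟩, f7⟩ :=
      hom u v (occ cell t) (occ cell s) x x' hot hos hx hx' hxT hxT'
        ⟨t, s, hlt, ht, hs, ⟨c, h1, e1⟩, rfl, ⟨y, h4, e3⟩, rfl⟩
    have g1 : t₁ = t' := huniq f2 h2 (fun a => (f3 a).trans (e2 a).symm) (f4.trans h3)
    have g2 : s₁ = s := huniq f5 h4 (fun a => (f6 a).trans (e4 a).symm) f7
    rw [← g1, ← g2]
    exact f1
  · intro hlt
    obtain ⟨s₁, t₁, f1, -, -, ⟨y₁, f2, f3⟩, f4, ⟨c₁, f5, f6⟩, f7⟩ :=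
      hom v u (occ cell s) (occ cell t) x x' hos hot hx hx' hxT hxT'
        ⟨s, t, hlt, hs, ht, ⟨y, h4, e3⟩, rfl, ⟨c, h1, e1⟩, rfl⟩
    have g1 : t₁ = t' := huniq f5 h2 (fun a => (f6 a).trans (e2 a).symm) (f7.trans h3)
    have g2 : s₁ = s := huniq f2 h4 (fun a => (f3 a).trans (e4 a).symm) f4
    rw [← g1, ← g2]
    exact f1

/-- acceptance -/
def Acc (M : Machine Q) (cell : ℕ → Option X) (n : ℕ) (z : X → Bool) : Prop :=
  ∃ q q', M.start q ∧ M.accept q' ∧ Go M (bits cell z) 0 n q q'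

/-- a homogeneous set gives exchangeable blocks -/
theorem swaps_of_hom {d : ℕ} (hd : 1 ≤ d) {w p l : ℕ}
    (hl : ∀ χ : Set (Fin d → Fin l) → ((Fin d → Fin d → Bool) × Fin (p + 1) → Fin w → Fin w → Prop),
      ∃ (a : Set (Fin d → Fin l)) (γ : Set (Fin l)),
        γ.Nonempty ∧ Disjoint a (cubeSet d γ) ∧ χ a = χ (a ∪ cubeSet d γ))
    [Fintype Q] (hQ : Fintype.card Q ≤ w) (M : Machine Q) {N K n : ℕ}
    (cell : ℕ → Option (Fin d → Fin N)) (hp : ∀ t < n, ∀ c, cell t = some c → occ cell t ≤ p)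
    (T : Finset ℕ) (hTN : T ⊆ Finset.range N) (hTK : #T = K + 2 * d) (hom : Hom p cell n T) :
    ∃ σ : Fin N ≃ Fin N, ∀ (b : ℕ) (hb : b * l ≤ N), b * l ≤ K →
      Swaps hd σ hb (Acc M cell n) := by
  classical
  -- the numbering
  have hKN : K + 2 * d ≤ N := by
    have := Finset.card_le_card hTN
    rwa [hTK, Finset.card_range] at this
  let E : Fin (K + 2 * d) → ℕ := fun i => T.orderEmbOfFin hTK i
  have hEm : StrictMono E := (T.orderEmbOfFin hTK).strictMono
  have hET : ∀ i, E i ∈ T := fun i => Finset.orderEmbOfFin_mem T hTK i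
  have hEN : ∀ i, E i < N := fun i => Finset.mem_range.1 (hTN (hET i))
  obtain ⟨g, hg⟩ := Finset.exists_equiv_extend_of_card_eq (α := Fin N) (β := Fin N)
    (t := Finset.univ) (by simp) (s := Finset.univ.filter fun i : Fin N => (i : ℕ) < K + 2 * d)
    (f := fun i => if h : (i : ℕ) < K + 2 * d then ⟨E ⟨i, h⟩, hEN _⟩ else i) (by simp) (by
      intro i hi j hj hij
      have hi' : (i : ℕ) < K + 2 * d := (Finset.mem_filter.1 hi).2
      have hj' : (j : ℕ) < K + 2 * d := (Finset.mem_filter.1 hj).2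
      simp only [dif_pos hi', dif_pos hj', Fin.mk.injEq] at hij
      have := hEm.injective hij
      simp only [Fin.mk.injEq] at this
      exact Fin.ext this)
  let τ : Fin N ≃ Fin N := g.trans (Equiv.subtypeUnivEquiv (fun x => Finset.mem_univ x))
  have hτ : ∀ (i : Fin N) (h : (i : ℕ) < K + 2 * d), ((τ i : Fin N) : ℕ) = E ⟨i, h⟩ := by
    intro i h
    have h1 := hg i (Finset.mem_filter.2 ⟨Finset.mem_univ _, h⟩)
    have h2 : τ i = (g i : Fin N) := rfl
    rw [h2, h1]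
    simp only [dif_pos h]
  refine ⟨τ.symm, ?_⟩
  intro b hb hbK ρ k
  have hcoord : ∀ (j : Fin b) (a : Fin l), ∃ h : l * (j : ℕ) + a < K,
      ((coord τ.symm hb j a : Fin N) : ℕ) = E ⟨l * (j : ℕ) + a, by omega⟩ := by
    intro j a
    have h1 : l * ((j : ℕ) + 1) ≤ l * b := Nat.mul_le_mul_left l j.2
    have h2 := a.2
    rw [mul_add, mul_one] at h1
    rw [mul_comm b l] at hbK
    refine ⟨by omega, ?_⟩
    unfold coord
    rw [Equiv.symm_symm]
    exact hτ _ _
  set Top : Finset ℕ := Finset.univ.image fun i : Fin (2 * d) => E ⟨K + i, by omega⟩ with hTop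
  have hTopT : Top ⊆ T := by
    intro x hx
    obtain ⟨i, -, rfl⟩ := Finset.mem_image.1 hx
    exact hET _
  have hTopc : 2 * d ≤ #Top := by
    rw [hTop, Finset.card_image_of_injective, Finset.card_univ, Fintype.card_fin]
    intro i j hij
    have := hEm.injective hij
    simp only [Fin.mk.injEq] at this
    exact Fin.ext (by omega)
  have hembT : ∀ (j : Fin b) (y : Fin d → Fin l) (a : Fin d),
      ((emb τ.symm hb (j, y) a : Fin N) : ℕ) ∈ T := by
    intro j y a
    obtain ⟨h1, h2⟩ := hcoord j (y a)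
    change ((coord τ.symm hb j (y a) : Fin N) : ℕ) ∈ T
    rw [h2]
    exact hET _
  have hembTop : ∀ (j : Fin b) (y : Fin d → Fin l) (a : Fin d), ∀ x ∈ Top,
      ((emb τ.symm hb (j, y) a : Fin N) : ℕ) < x := by
    intro j y a x hx
    obtain ⟨h1, h2⟩ := hcoord j (y a)
    obtain ⟨i, -, rfl⟩ := Finset.mem_image.1 hx
    change ((coord τ.symm hb j (y a) : Fin N) : ℕ) < _
    rw [h2]
    apply hEm
    rw [Fin.lt_def]
    simp only
    omega
  have hsep : ∀ j j' : Fin b, j < j' → ∀ (y y' : Fin d → Fin l) (a a' : Fin d),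
      emb τ.symm hb (j, y) a < emb τ.symm hb (j', y') a' := by
    intro j j' hjj y y' a a'
    rw [Fin.lt_def]
    obtain ⟨h1, h2⟩ := hcoord j (y a)
    obtain ⟨h3, h4⟩ := hcoord j' (y' a')
    change ((coord τ.symm hb j (y a) : Fin N) : ℕ) < ((coord τ.symm hb j' (y' a') : Fin N) : ℕ)
    rw [h2, h4]
    apply hEm
    rw [Fin.lt_def]
    simp only
    have h5 : l * ((j : ℕ) + 1) ≤ l * j' := Nat.mul_le_mul_left l hjj
    have h6 := (y a).2
    rw [mul_add, mul_one] at h5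
    omega
  -- the block and the other blocks
  set B : Set (Fin d → Fin N) := {c | ∃ y, c = emb τ.symm hb (k, y)} with hB
  set O : Set (Fin d → Fin N) := {c | ∃ j y, j ≠ k ∧ c = emb τ.symm hb (j, y)} with hO
  have hBO : Disjoint B O := by
    rw [Set.disjoint_left]
    rintro c ⟨y, hy⟩ ⟨j, y', hj, hy'⟩
    rw [hy] at hy'
    have := emb_injective hd τ.symm hb hy'
    rw [Prod.mk.injEq] at this
    exact hj this.1.symm
  let lab : ℕ → (Fin d → Fin d → Bool) × Fin (p + 1) := fun t =>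
    match cell t with
    | some c => (fun a a' => decide (c a < c a'), ⟨min (occ cell t) p, by omega⟩)
    | none => (fun _ _ => false, 0)
  have hlab : ∀ t < n, ∀ t' < n, (∃ c ∈ B, cell t = some c) → (∃ c ∈ B, cell t' = some c) →
      lab t = lab t' → ∀ u < n, (∃ c ∈ O, cell u = some c) → (t < u ↔ t' < u) := by
    rintro t ht t' ht' ⟨c, ⟨x, hx⟩, hc⟩ ⟨c', ⟨x', hx'⟩, hc'⟩ hll u hu ⟨y, ⟨j, x₂, hj, hx₂⟩, hy⟩
    have hocc := hp t ht c hc
    have hocc' := hp t' ht' c' hc'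
    have hoccu := hp u hu y hy
    simp only [lab, hc, hc', Prod.mk.injEq, Fin.mk.injEq] at hll
    obtain ⟨hl1, hl2⟩ := hll
    have hoo : occ cell t = occ cell t' := by omega
    have hpat : ∀ a a', c a < c a' ↔ c' a < c' a' := by
      intro a a'
      have := congrFun (congrFun hl1 a) a'
      rwa [decide_eq_decide] at this
    have hs1 : (∀ a a', c a < y a' ∧ c' a < y a') ∨ (∀ a a', y a' < c a ∧ y a' < c' a) := by
      rcases lt_or_gt_of_ne hj with h | h
      · right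
        intro a a'
        rw [hx, hx', hx₂]
        exact ⟨hsep _ _ h _ _ _ _, hsep _ _ h _ _ _ _⟩
      · left
        intro a a'
        rw [hx, hx', hx₂]
        exact ⟨hsep _ _ h _ _ _ _, hsep _ _ h _ _ _ _⟩
    have hcT : ∀ a, ((c a : Fin N) : ℕ) ∈ T := fun a => by rw [hx]; exact hembT _ _ _
    have hcT' : ∀ a, ((c' a : Fin N) : ℕ) ∈ T := fun a => by rw [hx']; exact hembT _ _ _
    have hyT : ∀ a, ((y a : Fin N) : ℕ) ∈ T := fun a => by rw [hx₂]; exact hembT _ _ _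
    have hcTop : ∀ a, ∀ x ∈ Top, ((c a : Fin N) : ℕ) < x := fun a => by
      rw [hx]; exact hembTop _ _ _
    have hcTop' : ∀ a, ∀ x ∈ Top, ((c' a : Fin N) : ℕ) < x := fun a => by
      rw [hx']; exact hembTop _ _ _
    have hpat' : ∀ a a', c' a < c' a' ↔ c a < c a' := fun a a' => (hpat a a').symm
    have hs2 : (∀ a a', c' a < y a' ∧ c a < y a') ∨ (∀ a a', y a' < c' a ∧ y a' < c a) := by
      rcases hs1 with h | h
      · left; exact fun a a' => (h a a').symm
      · right; exact fun a a' => (h a a').symm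
    constructor
    · exact (canon hom hTopT hTopc hcT hcT' hyT hcTop hcTop' hpat hs1 ht hu hc hc' hoo hy hocc
        hoccu).1
    · exact (canon hom hTopT hTopc hcT' hcT hyT hcTop' hcTop hpat' hs2 ht' hu hc' hc hoo.symm hy
        hocc' hoccu).1
  let asm : Set (Fin d → Fin l) → (Fin d → Fin N) → Bool := fun x c =>
    match (cellEquiv hd τ.symm hb).symm c with
    | Sum.inl (j, y) => if j = k then decide (y ∈ x) else false
    | Sum.inr r => ρ r
  obtain ⟨col, hcol⟩ := exists_colour hQ M cell n B O hBO lab hlab asm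
  obtain ⟨a, γ, hγ, hdisj, hag⟩ := hl col
  refine ⟨a, γ, hγ, hdisj, ?_⟩
  intro z z' hz1 hz2 hz3 hz4 hacc
  have hagree : ∀ (y : (Fin d → Fin N) → Bool) (x : Set (Fin d → Fin l)),
      out (conf hd τ.symm hb y) = ρ → (∀ c, cont (conf hd τ.symm hb y) k c = true ↔ c ∈ x) →
      ∀ c ∉ O, y c = asm x c := by
    intro y x h1 h2 c hcO
    obtain ⟨v, hv⟩ := (cellEquiv hd τ.symm hb).surjective c
    rw [← hv]
    rcases v with ⟨j, e⟩ | r
    · have hj : j = k := by
        by_contra hjk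
        apply hcO
        rw [cellEquiv_inl] at hv
        exact ⟨j, e, hjk, hv.symm⟩
      subst hj
      have h3 := h2 e
      have h4 : asm x (cellEquiv hd τ.symm hb (Sum.inl (j, e))) = decide (e ∈ x) := by
        simp only [asm, Equiv.symm_apply_apply, if_true]
      rw [h4]
      change cont (conf hd τ.symm hb y) j e = decide (e ∈ x)
      rw [Bool.eq_iff_iff, h3, decide_eq_true_iff]
    · have h4 : asm x (cellEquiv hd τ.symm hb (Sum.inr r)) = ρ r := by
        simp only [asm, Equiv.symm_apply_apply]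
      rw [h4, ← h1]
      rfl
  have hz1' : out (conf hd τ.symm hb z') = ρ := by
    rw [← hz1]
    funext r
    exact hz4 (Sum.inr r) (fun x => by simp)
  obtain ⟨q, q', f1, f2, f3⟩ := hacc
  refine ⟨q, q', f1, f2, hcol a _ hag z z' (hagree z a hz1 hz2) (hagree z' _ hz1' hz3) ?_ q q' f3⟩
  intro c hcB
  obtain ⟨v, hv⟩ := (cellEquiv hd τ.symm hb).surjective c
  rw [← hv]
  refine hz4 v ?_
  rintro x rfl
  apply hcB
  rw [cellEquiv_inl] at hv
  exact ⟨x, hv.symm⟩

end Pool.Agent.Y613.RA
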