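import Pool.Agent.Y613.RA.Swap

/-!
# The density theorem for families with exchangeable blocks
-/

set_option autoImplicit false

namespace Pool.Agent.Y613.RA

open Finset Pool.Agent.Y613.PJ

/-- In each block, for all contents of the other cells outside the blocks, some contents can be
replaced by larger ones without leaving the family of the accepted sets. -/
def Swaps {d : ℕ} (hd : 1 ≤ d) {l N b : ℕ} (σ : Fin N ≃ Fin N) (hb : b * l ≤ N)
    (Acc : ((Fin d → Fin N) → Bool) → Prop) : Prop :=
  ∀ (ρ : Rest σ hb d → Bool) (k : Fin b),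
    ∃ (a : Set (Fin d → Fin l)) (γ : Set (Fin l)), γ.Nonempty ∧ Disjoint a (cubeSet d γ) ∧
      ∀ z z' : (Fin d → Fin N) → Bool, out (conf hd σ hb z) = ρ →
        (∀ x, cont (conf hd σ hb z) k x = true ↔ x ∈ a) →
        (∀ x, cont (conf hd σ hb z') k x = true ↔ x ∈ a ∪ cubeSet d γ) →
        (∀ s, (∀ x, s ≠ Sum.inl (k, x)) → conf hd σ hb z' s = conf hd σ hb z s) →
        Acc z → Acc z'

/-- the combinatorial part: the number of sets in a family with exchangeable blocks -/
theorem family_bound {d : ℕ} (hd : 1 ≤ d) {l : ℕ} {N b : ℕ} (hb : b * l ≤ N)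
    (σ : Fin N ≃ Fin N) (Acc : ((Fin d → Fin N) → Bool) → Prop) (hsw : Swaps hd σ hb Acc)
    (F S : Finset (Finset (Fin d → Fin N)))
    (hF : ∀ A, A ∈ F ↔ Acc (fun c => decide (c ∈ A))) (hS : ¬ Good S) (m : ℕ) :
    (m : ℝ) * #F ≤ m * (2 ^ m * (2 ^ (N ^ d) * (1 - 1 / (2 * 2 ^ (l ^ d))) ^ b)) +
      2 * b * #(F \ S) := by
  classical
  choose a γ hγ hdisj hswap using hsw
  -- sets as configurations
  let T : Finset (Fin d → Fin N) → Conf b (Fin d → Fin l) (Rest σ hb d) := fun A =>
    conf hd σ hb (fun c => decide (c ∈ A))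
  have hT : Function.Injective T := by
    intro A B h
    ext c
    obtain ⟨s, rfl⟩ := (cellEquiv hd σ hb).surjective c
    have h1 := congrFun h s
    simp only [T, conf, decide_eq_decide] at h1
    exact h1
  let al : (Rest σ hb d → Bool) → Fin b → (Fin d → Fin l) → Bool := fun ρ k x =>
    decide (x ∈ a ρ k)
  let al' : (Rest σ hb d → Bool) → Fin b → (Fin d → Fin l) → Bool := fun ρ k x =>
    decide (x ∈ a ρ k ∪ cubeSet d (γ ρ k))
  have hrob := robust al al' (F.image T) ((F \ S).image T) (by
    intro z hz k hk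
    obtain ⟨A, hA, rfl⟩ := Finset.mem_image.1 hz
    set ρ := out (T A) with hρ
    by_cases hAS : A ∈ S
    · right
      -- the larger set
      set Γ : Finset (Fin N) := (Finset.univ.filter fun i : Fin l => i ∈ γ ρ k).image
        (coord σ hb k) with hΓ
      have hmemΓ : ∀ x : Fin d → Fin N, x ∈ cube d Γ ↔ ∃ y ∈ cubeSet d (γ ρ k),
          emb σ hb (k, y) = x := by
        intro x
        unfold cube
        rw [Fintype.mem_piFinset]
        constructor
        · intro h
          choose y hy using fun i => Finset.mem_image.1 (h i)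
          refine ⟨y, fun i => (Finset.mem_filter.1 (hy i).1).2, ?_⟩
          funext i
          exact (hy i).2
        · rintro ⟨y, hy, rfl⟩ i
          exact Finset.mem_image.2 ⟨y i, Finset.mem_filter.2 ⟨Finset.mem_univ _, hy i⟩, rfl⟩
      have hAk : ∀ x, emb σ hb (k, x) ∈ A ↔ x ∈ a ρ k := by
        intro x
        have h1 := congrFun hk x
        simp only [cont, T, conf, al, decide_eq_decide, cellEquiv_inl] at h1
        exact h1
      have hcell : ∀ s, (cellEquiv hd σ hb s ∈ A ∪ cube d Γ) ↔
          put (T A) k (al' ρ k) s = true := by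
        intro s
        rw [Finset.mem_union, hmemΓ]
        rcases s with ⟨j, x⟩ | r
        · by_cases hj : j = k
          · subst hj
            simp only [put, if_true, al', decide_eq_true_eq, Set.mem_union, cellEquiv_inl, hAk]
            constructor
            · rintro (h | ⟨y, hy, h⟩)
              · exact Or.inl h
              · have := emb_injective hd σ hb h
                rw [Prod.mk.injEq] at this
                right
                rw [← this.2]; exact hy
            · rintro (h | h)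
              · exact Or.inl h
              · exact Or.inr ⟨x, h, rfl⟩
          · simp only [put, if_neg hj, T, conf, decide_eq_true_eq, cellEquiv_inl]
            constructor
            · rintro (h | ⟨y, hy, h⟩)
              · exact h
              · have := emb_injective hd σ hb h
                rw [Prod.mk.injEq] at this
                exact absurd this.1.symm hj
            · exact Or.inl
        · simp only [put, T, conf, decide_eq_true_eq]
          constructor
          · rintro (h | ⟨y, hy, h⟩)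
            · exact h
            · exfalso
              rw [← cellEquiv_inl hd] at h
              have := (cellEquiv hd σ hb).injective h
              simp at this
          · exact Or.inl
      have hTA : T (A ∪ cube d Γ) = put (T A) k (al' ρ k) := by
        funext s
        have h1 := hcell s
        change decide (cellEquiv hd σ hb s ∈ A ∪ cube d Γ) = _
        rw [Bool.eq_iff_iff, decide_eq_true_iff]
        exact h1
      rw [← hTA]
      refine Finset.mem_image.2 ⟨A ∪ cube d Γ, ?_, rfl⟩
      rw [Finset.mem_sdiff]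
      constructor
      · rw [hF]
        refine hswap ρ k _ _ rfl ?_ ?_ ?_ ((hF A).1 hA)
        · intro x
          have := congrFun hk x
          change T A (Sum.inl (k, x)) = decide (x ∈ a ρ k) at this
          change T A (Sum.inl (k, x)) = true ↔ _
          rw [this, decide_eq_true_iff]
        · intro x
          change T (A ∪ cube d Γ) (Sum.inl (k, x)) = true ↔ _
          rw [hTA]
          simp [put, al']
        · intro s hs
          change T (A ∪ cube d Γ) s = T A s
          rw [hTA]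
          rcases s with ⟨j, x⟩ | r
          · have hj : j ≠ k := by
              rintro rfl
              exact hs x rfl
            simp [put, hj]
          · rfl
      · intro hmem
        refine hS ⟨A, hAS, Γ, ?_, ?_, hmem⟩
        · obtain ⟨y, hy⟩ := hγ ρ k
          exact ⟨coord σ hb k y, Finset.mem_image.2
            ⟨y, Finset.mem_filter.2 ⟨Finset.mem_univ _, hy⟩, rfl⟩⟩
        · rw [Finset.disjoint_left]
          intro x hx hx'
          obtain ⟨y, hy, rfl⟩ := (hmemΓ x).1 hx'
          exact (Set.disjoint_left.1 (hdisj ρ k)) ((hAk y).1 hx) hy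
    · left
      exact Finset.mem_image.2 ⟨A, Finset.mem_sdiff.2 ⟨hA, hAS⟩, rfl⟩) m
  rw [Finset.card_image_of_injective _ hT, Finset.card_image_of_injective _ hT] at hrob
  have hfew := few_hits (R := Rest σ hb d) al m
  have hcardC : Fintype.card (Fin d → Fin l) = l ^ d := by
    rw [Fintype.card_fun, Fintype.card_fin, Fintype.card_fin]
  have hcard : Fintype.card (Rest σ hb d) + b * l ^ d = N ^ d := by
    have h1 := Fintype.card_congr (cellEquiv hd σ hb)
    rw [Fintype.card_sum, Fintype.card_prod, hcardC, Fintype.card_fin, Fintype.card_fun,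
      Fintype.card_fin, Fintype.card_fin] at h1
    omega
  have hq : (2 : ℝ) ^ Fintype.card (Rest σ hb d) *
      (2 ^ Fintype.card (Fin d → Fin l) - 1 / 2) ^ b =
      2 ^ (N ^ d) * (1 - 1 / (2 * 2 ^ (l ^ d))) ^ b := by
    rw [← hcard, hcardC, pow_add, mul_comm b, pow_mul, mul_assoc, ← mul_pow]
    congr 2
    field_simp
  rw [hq] at hfew
  have h1 : ((m * #F : ℕ) : ℝ) ≤ ((m * #{z : Conf b (Fin d → Fin l) (Rest σ hb d) |
      hits al z < m} + 2 * b * #(F \ S) : ℕ) : ℝ) := by exact_mod_cast hrob
  push_cast at h1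
  refine h1.trans ?_
  have h2 : (0 : ℝ) ≤ m := Nat.cast_nonneg m
  have h3 := mul_le_mul_of_nonneg_left hfew h2
  linarith

/-- **Main theorem.** -/
theorem main (d : ℕ) (hd : 1 ≤ d) (l : ℕ) (hl0 : 0 < l) : ∃ η lam : ℝ, 0 < η ∧ 0 < lam ∧ lam < 1 ∧
    ∀ (N K : ℕ) (σ : Fin N ≃ Fin N) (Acc : ((Fin d → Fin N) → Bool) → Prop), K ≤ N →
      (∀ (b : ℕ) (hb : b * l ≤ N), b * l ≤ K → Swaps hd σ hb Acc) →
      ∀ F S : Finset (Finset (Fin d → Fin N)),
        (∀ A, A ∈ F ↔ Acc (fun c => decide (c ∈ A))) →
        8 * lam ^ K * 2 ^ (N ^ d) < #F → (#(F \ S) : ℝ) ≤ η * #F → Good S := by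
  classical
  set ρ : ℝ := 1 - 1 / (2 * 2 ^ (l ^ d)) with hρ
  have hpow : (1 : ℝ) ≤ 2 ^ (l ^ d) := one_le_pow₀ (by norm_num)
  have hρ1 : ρ < 1 := by
    have : (0 : ℝ) < 1 / (2 * 2 ^ (l ^ d)) := by positivity
    rw [hρ]; linarith
  have hρ2 : 1 / 2 ≤ ρ := by
    have : (1 : ℝ) / (2 * 2 ^ (l ^ d)) ≤ 1 / 2 :=
      one_div_le_one_div_of_le (by norm_num) (by linarith)
    rw [hρ]; linarith
  have hρ0 : 0 < ρ := by linarith
  have hlog : Real.log ρ < 0 := Real.log_neg hρ0 hρ1
  have hlogl : -Real.log 2 ≤ Real.log ρ := by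
    rw [← Real.log_inv]
    exact Real.log_le_log (by norm_num) (by rw [inv_eq_one_div]; exact hρ2)
  have hl' : (0 : ℝ) < l := by exact_mod_cast hl0
  have hlog2 : 0 < Real.log 2 := Real.log_pos (by norm_num)
  set θ : ℝ := -Real.log ρ / (2 * Real.log 2) with hθ
  have hθ0 : 0 < θ := by
    rw [hθ]; exact div_pos (by linarith) (by positivity)
  set lam : ℝ := Real.exp (Real.log ρ / (2 * l)) with hlam
  refine ⟨θ / 4, lam, by positivity, Real.exp_pos _, ?_, ?_⟩
  · rw [hlam, Real.exp_lt_one_iff]
    exact div_neg_of_neg_of_pos hlog (by positivity)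
  intro N K σ Acc hKN hsw F S hF hbig hsmall
  by_contra hS
  obtain ⟨b, hb, hb'⟩ : ∃ b, b * l ≤ K ∧ K < (b + 1) * l :=
    ⟨K / l, Nat.div_mul_le_self K l, by rw [mul_comm]; exact Nat.lt_mul_div_succ K hl0⟩
  set m : ℕ := ⌊θ * b⌋₊ + 1 with hm
  have hm1 : θ * b ≤ m := by
    rw [hm]; push_cast
    exact (Nat.lt_floor_add_one _).le
  have hm2 : (m : ℝ) ≤ θ * b + 1 := by
    rw [hm]; push_cast
    have := Nat.floor_le (show 0 ≤ θ * b by positivity)
    linarith
  have hm0 : (0 : ℝ) < m := by rw [hm]; positivity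
  have h1 := family_bound hd (hb.trans hKN) σ Acc (hsw b (hb.trans hKN) hb) F S hF hS m
  rw [← hρ] at h1
  -- estimate of `2 ^ m ρ ^ b`
  have h2 : (2 : ℝ) ^ m * ρ ^ b ≤ 2 * Real.exp (b * Real.log ρ / 2) := by
    have e1 : (2 : ℝ) ^ m ≤ 2 * Real.exp (θ * b * Real.log 2) := by
      calc (2 : ℝ) ^ m = (2 : ℝ) ^ (m : ℝ) := (Real.rpow_natCast _ _).symm
        _ ≤ (2 : ℝ) ^ (θ * b + 1) := Real.rpow_le_rpow_of_exponent_le (by norm_num) hm2
        _ = 2 * (2 : ℝ) ^ (θ * b) := by
            rw [Real.rpow_add (by norm_num), Real.rpow_one, mul_comm]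
        _ = 2 * Real.exp (θ * b * Real.log 2) := by
            rw [Real.rpow_def_of_pos (by norm_num), mul_comm (Real.log 2)]
    have e2 : ρ ^ b = Real.exp (b * Real.log ρ) := by
      rw [← Real.log_pow, Real.exp_log (by positivity)]
    have e3 : θ * b * Real.log 2 + b * Real.log ρ = b * Real.log ρ / 2 := by
      rw [hθ]; field_simp; ring
    calc (2 : ℝ) ^ m * ρ ^ b ≤ 2 * Real.exp (θ * b * Real.log 2) * ρ ^ b :=
          mul_le_mul_of_nonneg_right e1 (by positivity)
      _ = 2 * (Real.exp (θ * b * Real.log 2) * Real.exp (b * Real.log ρ)) := by rw [e2]; ring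
      _ = _ := by rw [← Real.exp_add, e3]
  have h3 : Real.exp (b * Real.log ρ / 2) ≤ 2 * lam ^ K := by
    have e1 : lam ^ K = Real.exp (K * (Real.log ρ / (2 * l))) := by
      rw [hlam, ← Real.exp_nat_mul]
    have e2 : 2 * Real.exp (K * (Real.log ρ / (2 * l))) =
        Real.exp (Real.log 2 + K * (Real.log ρ / (2 * l))) := by
      rw [Real.exp_add, Real.exp_log (by norm_num)]
    rw [e1, e2]
    refine Real.exp_le_exp.2 ?_
    have e3 : (K : ℝ) ≤ (b + 1) * l := by exact_mod_cast hb'.le
    have e4 : (K : ℝ) / l ≤ b + 1 := by rw [div_le_iff₀ hl']; exact e3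
    have e5 : (K : ℝ) * (Real.log ρ / (2 * l)) = (K / l) * (Real.log ρ / 2) := by
      field_simp
    rw [e5]
    have e6 : (b + 1) * (Real.log ρ / 2) ≤ (K / l) * (Real.log ρ / 2) :=
      mul_le_mul_of_nonpos_right e4 (by linarith)
    have e7 : b * Real.log ρ / 2 = (b + 1) * (Real.log ρ / 2) - Real.log ρ / 2 := by ring
    linarith
  have h4 : (2 : ℝ) ^ m * (2 ^ (N ^ d) * ρ ^ b) ≤ 4 * lam ^ K * 2 ^ (N ^ d) := by
    calc (2 : ℝ) ^ m * (2 ^ (N ^ d) * ρ ^ b) = 2 ^ (N ^ d) * (2 ^ m * ρ ^ b) := by ring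
      _ ≤ 2 ^ (N ^ d) * (2 * (2 * lam ^ K)) :=
          mul_le_mul_of_nonneg_left (h2.trans (mul_le_mul_of_nonneg_left h3 (by norm_num)))
            (by positivity)
      _ = _ := by ring
  have h5 : (m : ℝ) * #F ≤ m * (4 * lam ^ K * 2 ^ (N ^ d)) + 2 * b * (θ / 4 * #F) := by
    refine h1.trans ?_
    have e1 := mul_le_mul_of_nonneg_left h4 hm0.le
    have e2 := mul_le_mul_of_nonneg_left hsmall (show (0 : ℝ) ≤ 2 * b by positivity)
    linarith
  have h6 : 2 * b * (θ / 4 * #F) ≤ m * (#F / 2 : ℝ) := by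
    have e1 : 2 * b * (θ / 4 * #F) = (θ * b) * (#F / 2 : ℝ) := by ring
    rw [e1]
    exact mul_le_mul_of_nonneg_right hm1 (by positivity)
  have h7 : (m : ℝ) * #F ≤ m * (4 * lam ^ K * 2 ^ (N ^ d) + #F / 2) := by
    rw [mul_add]; linarith
  have h8 := le_of_mul_le_mul_left h7 hm0
  linarith

end Pool.Agent.Y613.RA
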