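import Pool.Agent.Y613.PJ.Fin

/-!
# Machines which read cells in an arbitrary order: exchanging the contents of a block
-/

set_option autoImplicit false

namespace Pool.Agent.Y613.RA

open Finset Pool.Agent.Y613.PJ

variable {Q X : Type}

/-- the bits which are read -/
def bits (cell : ℕ → Option X) (z : X → Bool) (t : ℕ) : Bool :=
  match cell t with
  | some c => z c
  | none => false

/-- transitions from the time `s` to the time `t` when the bits `β` are read -/
abbrev Go (M : Machine Q) (β : ℕ → Bool) (s t : ℕ) (q q' : Q) : Prop := Seg M 0 id β s t q q'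

/-- several disjoint intervals can be changed at the same time -/
theorem go_many {ι : Type} (M : Machine Q) (β' : ℕ → Bool) (n : ℕ) (s t : ι → ℕ) (V : Finset ι)
    (hst : ∀ v ∈ V, s v ≤ t v) (htn : ∀ v ∈ V, t v ≤ n)
    (hdis : ∀ v ∈ V, ∀ v' ∈ V, ∀ u, s v ≤ u → u < t v → s v' ≤ u → u < t v' → v = v') :
    ∀ β : ℕ → Bool, (∀ v ∈ V, ∀ q q', Go M β (s v) (t v) q q' → Go M β' (s v) (t v) q q') →
      (∀ u, u < n → (∀ v ∈ V, ¬ (s v ≤ u ∧ u < t v)) → β' u = β u) →
      ∀ q q', Go M β 0 n q q' → Go M β' 0 n q q' := by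
  classical
  induction V using Finset.induction_on with
  | empty =>
    intro β _ h2 q q' h
    exact h.congr fun u _ hu => h2 u hu (by simp)
  | insert v V hv ih =>
    intro β h1 h2 q q' h
    have hst' : ∀ v ∈ V, s v ≤ t v := fun v hv => hst v (Finset.mem_insert_of_mem hv)
    have htn' : ∀ v ∈ V, t v ≤ n := fun v hv => htn v (Finset.mem_insert_of_mem hv)
    have hv' := Finset.mem_insert_self v V
    refine ih hst' htn' (fun a ha b hb => hdis a (Finset.mem_insert_of_mem ha) b
      (Finset.mem_insert_of_mem hb)) (fun u => if s v ≤ u ∧ u < t v then β' u else β u) ?_ ?_ q q' ?_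
    · intro v₁ hv₁ p p' hp
      refine h1 v₁ (Finset.mem_insert_of_mem hv₁) p p' (hp.congr fun u hu hu' => ?_)
      have : ¬ (s v ≤ u ∧ u < t v) := by
        rintro ⟨h3, h4⟩
        have := hdis v hv' v₁ (Finset.mem_insert_of_mem hv₁) u h3 h4 hu hu'
        rw [this] at hv
        exact hv hv₁
      simp only [id, if_neg this]
    · intro u hu hu'
      by_cases h3 : s v ≤ u ∧ u < t v
      · simp only [if_pos h3]
      · simp only [if_neg h3]
        refine h2 u hu fun v₁ hv₁ => ?_
        rcases Finset.mem_insert.1 hv₁ with rfl | h4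
        · exact h3
        · exact hu' v₁ h4
    · refine h.swap (hst v hv') (htn v hv') ?_ ?_
      · intro p p' hp
        refine (h1 v hv' p p' hp).congr fun u hu hu' => ?_
        simp only [id, if_pos (And.intro hu hu')]
      · intro u _ hu
        simp only [id, if_neg hu]

/-- a convex set of times is an interval -/
theorem interval_of_convex (n : ℕ) (P : ℕ → Prop)
    (h : ∀ a b c, a ≤ b → b ≤ c → c < n → P a → P c → P b) :
    ∃ A B, A ≤ B ∧ B ≤ n ∧ ∀ u, (A ≤ u ∧ u < B) ↔ (u < n ∧ P u) := by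
  classical
  by_cases hne : ((Finset.range n).filter P).Nonempty
  · set F := (Finset.range n).filter P with hF
    have hmem : ∀ u, u ∈ F ↔ u < n ∧ P u := fun u => by
      rw [hF, Finset.mem_filter, Finset.mem_range]
    have h1 := (hmem _).1 (F.min'_mem hne)
    have h2 := (hmem _).1 (F.max'_mem hne)
    refine ⟨F.min' hne, F.max' hne + 1, ?_, h2.1, fun u => ?_⟩
    · have := F.min'_le_max' hne
      omega
    · constructor
      · rintro ⟨h3, h4⟩
        have h5 : u ≤ F.max' hne := Nat.lt_succ_iff.1 h4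
        exact ⟨lt_of_le_of_lt h5 h2.1, h _ _ _ h3 h5 h2.1 h1.2 h2.2⟩
      · intro h3
        have h4 := (hmem u).2 h3
        exact ⟨F.min'_le _ h4, Nat.lt_succ_of_le (F.le_max' _ h4)⟩
  · refine ⟨0, 0, le_refl _, Nat.zero_le _, fun u => ⟨fun h => absurd h.2 (Nat.not_lt_zero _), ?_⟩⟩
    rintro ⟨h1, h2⟩
    exact absurd ⟨u, Finset.mem_filter.2 ⟨Finset.mem_range.2 h1, h2⟩⟩ hne

/-- **Exchange of the contents of a block.** The cells of the block are `B`, the cells of the other
blocks are `O`; `lab` labels the times at which the block is read such that no cell of `O` is read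
between two times with the same label. Then the contents can be coloured such that contents with the
same colour can be exchanged. -/
theorem exists_colour {Ty W : Type} [Fintype Q] {w : ℕ} (hQ : Fintype.card Q ≤ w) (M : Machine Q)
    (cell : ℕ → Option X) (n : ℕ) (B O : Set X) (hBO : Disjoint B O) (lab : ℕ → Ty)
    (hlab : ∀ t < n, ∀ t' < n, (∃ c ∈ B, cell t = some c) → (∃ c ∈ B, cell t' = some c) →
      lab t = lab t' → ∀ u < n, (∃ c ∈ O, cell u = some c) → (t < u ↔ t' < u))
    (asm : W → X → Bool) :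
    ∃ col : W → (Ty → Fin w → Fin w → Prop), ∀ x x', col x = col x' → ∀ z z' : X → Bool,
      (∀ c ∉ O, z c = asm x c) → (∀ c ∉ O, z' c = asm x' c) → (∀ c ∉ B, z' c = z c) →
      ∀ q q', Go M (bits cell z) 0 n q q' → Go M (bits cell z') 0 n q q' := by
  classical
  obtain ⟨ε⟩ : Nonempty (Q ↪ Fin w) :=
    Function.Embedding.nonempty_of_card_le (by rw [Fintype.card_fin]; exact hQ)
  -- the number of foreign reads before `t`
  set κ : ℕ → ℕ := fun t => #((Finset.range t).filter fun u => ∃ c ∈ O, cell u = some c) with hκ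
  have hmono : Monotone κ := fun a b hab =>
    Finset.card_le_card (Finset.filter_subset_filter _ (Finset.range_mono hab))
  have hsucc : ∀ u, (∃ c ∈ O, cell u = some c) → κ (u + 1) = κ u + 1 := by
    intro u hu
    simp only [hκ]
    rw [Finset.range_add_one, Finset.filter_insert, if_pos hu, Finset.card_insert_of_notMem]
    simp
  -- the intervals
  have hint : ∀ v : ℕ, ∃ A B', A ≤ B' ∧ B' ≤ n ∧ ∀ u, (A ≤ u ∧ u < B') ↔
      (u < n ∧ (κ u = v ∧ ¬ ∃ c ∈ O, cell u = some c)) := by
    intro v
    refine interval_of_convex n _ ?_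
    rintro a b c hab hbc _ ⟨h1, _⟩ ⟨h3, h4⟩
    have e1 := hmono hab
    have e2 := hmono hbc
    refine ⟨by omega, fun h5 => ?_⟩
    rcases eq_or_lt_of_le hbc with rfl | h6
    · exact h4 h5
    · have e3 := hmono (Nat.succ_le_of_lt h6)
      have e4 := hsucc b h5
      simp only [Nat.succ_eq_add_one] at e3
      omega
  choose A E hAE hEn hmem using hint
  -- the value at a label
  let val : Ty → ℕ := fun τ =>
    if h : ∃ t, t < n ∧ (∃ c ∈ B, cell t = some c) ∧ lab t = τ then κ h.choose else 0
  have hval : ∀ t, t < n → (∃ c ∈ B, cell t = some c) → val (lab t) = κ t := by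
    intro t ht htB
    have hex : ∃ t', t' < n ∧ (∃ c ∈ B, cell t' = some c) ∧ lab t' = lab t := ⟨t, ht, htB, rfl⟩
    obtain ⟨h1, h2, h3⟩ := hex.choose_spec
    simp only [val, dif_pos hex, hκ]
    congr 1
    ext u
    simp only [Finset.mem_filter, Finset.mem_range]
    constructor
    · rintro ⟨h4, h5⟩
      refine ⟨?_, h5⟩
      have h6 := hlab _ h1 t ht h2 htB h3 u (h4.trans h1) h5
      by_contra h7
      have h8 : u ≠ t := by
        rintro rfl
        obtain ⟨c, hc, hc'⟩ := htB
        obtain ⟨c₁, hc₁, hc₁'⟩ := h5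
        rw [hc'] at hc₁'
        rw [Option.some_inj] at hc₁'
        subst hc₁'
        exact Set.disjoint_left.1 hBO hc hc₁
      have h9 := h6.2 (by omega)
      omega
    · rintro ⟨h4, h5⟩
      refine ⟨?_, h5⟩
      have h6 := hlab _ h1 t ht h2 htB h3 u (h4.trans ht) h5
      by_contra h7
      have h8 : u ≠ hex.choose := by
        intro h8
        obtain ⟨c, hc, hc'⟩ := h2
        obtain ⟨c₁, hc₁, hc₁'⟩ := h5
        rw [← h8, hc₁'] at hc'
        rw [Option.some_inj] at hc'
        subst hc'
        exact Set.disjoint_left.1 hBO hc hc₁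
      have h9 := h6.1 (by omega)
      omega
  refine ⟨fun x τ q₁ q₂ => ∃ q q', ε q = q₁ ∧ ε q' = q₂ ∧
    Go M (bits cell (asm x)) (A (val τ)) (E (val τ)) q q', ?_⟩
  intro x x' hcol z z' hz hz' hzz q q' hgo
  set V : Finset ℕ := ((Finset.range n).filter fun t => ∃ c ∈ B, cell t = some c).image κ with hV
  refine go_many M (bits cell z') n A E V (fun v _ => hAE v) (fun v _ => hEn v) ?_
    (bits cell z) ?_ ?_ q q' hgo
  · intro v _ v' _ u h1 h2 h3 h4
    have e1 := ((hmem v u).1 ⟨h1, h2⟩).2.1
    have e2 := ((hmem v' u).1 ⟨h3, h4⟩).2.1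
    rw [← e1, ← e2]
  · intro v hv p p' hp
    obtain ⟨t, ht, rfl⟩ := Finset.mem_image.1 hv
    rw [Finset.mem_filter, Finset.mem_range] at ht
    have hvt := hval t ht.1 ht.2
    have hag : ∀ (y : X → Bool) (x : W), (∀ c ∉ O, y c = asm x c) → ∀ u, A (κ t) ≤ u →
        u < E (κ t) → bits cell y u = bits cell (asm x) u := by
      intro y x hy u hu hu'
      have h1 := ((hmem _ u).1 ⟨hu, hu'⟩).2.2
      unfold bits
      rcases hc : cell u with _ | c
      · rfl
      · exact hy c fun hcO => h1 ⟨c, hcO, hc⟩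
    have h1 : Go M (bits cell (asm x)) (A (κ t)) (E (κ t)) p p' :=
      hp.congr fun u hu hu' => (hag z x hz u hu hu').symm
    have h2 := congrFun (congrFun (congrFun hcol (lab t)) (ε p)) (ε p')
    simp only [hvt] at h2
    have h3 : ∃ q q', ε q = ε p ∧ ε q' = ε p' ∧
        Go M (bits cell (asm x')) (A (κ t)) (E (κ t)) q q' := by
      rw [← eq_iff_iff.1 h2]
      exact ⟨p, p', rfl, rfl, h1⟩
    obtain ⟨p₁, p₂, e1, e2, h4⟩ := h3
    rw [ε.injective e1, ε.injective e2] at h4
    exact h4.congr fun u hu hu' => hag z' x' hz' u hu hu'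
  · intro u hu hu'
    unfold bits
    rcases hc : cell u with _ | c
    · rfl
    · by_cases hcB : c ∈ B
      · exfalso
        have h1 : ¬ ∃ c ∈ O, cell u = some c := by
          rintro ⟨c₁, hc₁, hc₁'⟩
          rw [hc, Option.some_inj] at hc₁'
          subst hc₁'
          exact Set.disjoint_left.1 hBO hcB hc₁
        refine hu' (κ u) ?_ ((hmem _ u).2 ⟨hu, rfl, h1⟩)
        rw [hV]
        exact Finset.mem_image.2 ⟨u, Finset.mem_filter.2 ⟨Finset.mem_range.2 hu, c, hcB, hc⟩, rfl⟩
      · exact hzz c hcB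

end Pool.Agent.Y613.RA
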