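import Pool.Agent.Y613.RA.Serial

/-!
# Families of sets decided by branching programs of bounded width
-/

set_option autoImplicit false

namespace Pool.Agent.Y613.RA

open Finset Pool.Agent.Y613.PJ

/-- the family `F` of subsets of `[N]^d` is decided by a nondeterministic branching program of width
at most `w` in which each cell is queried at most at `p` nodes -/
def Decided (d N w p : ℕ) (F : Finset (Finset (Fin d → Fin N))) : Prop :=
  ∃ w' ≤ w, ∃ P : Program w' (Fin d → Fin N), P.ReadAtMost p ∧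
    ∀ A, A ∈ F ↔ P.Accepts (fun c => decide (c ∈ A))

theorem core (d : ℕ) (hd : 1 ≤ d) : ∃ C : ℕ, ∀ w p : ℕ, ∃ (η lam : ℝ) (a : ℕ), 0 < η ∧ 0 < lam ∧
    lam < 1 ∧ ∀ (N K : ℕ) (F S : Finset (Finset (Fin d → Fin N))),
      RC.tow C (a * (K + 1)) ≤ N → Decided d N w p F → 8 * lam ^ K * 2 ^ (N ^ d) < #F →
        (#(F \ S) : ℝ) ≤ η * #F → Good S := by
  obtain ⟨C, hC⟩ := exists_hom d
  refine ⟨C, fun w p => ?_⟩
  obtain ⟨a, ha⟩ := hC p
  obtain ⟨l, hl⟩ := exists_pair d hd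
    ((Fin d → Fin d → Bool) × Fin (p + 1) → Fin (2 * w) → Fin (2 * w) → Prop)
  have hl0 : 0 < l := by
    obtain ⟨-, γ, ⟨x, -⟩, -⟩ := hl fun _ _ _ _ => True
    exact lt_of_le_of_lt (Nat.zero_le _) x.2
  obtain ⟨η, lam, hη, hlam, hlam1, hmain⟩ := main d hd l hl0
  refine ⟨η, lam, a * (2 * d + 1), hη, hlam, hlam1, ?_⟩
  rintro N K F S hN ⟨w', hw, P, hP, hF⟩ hbig hsmall
  have hle : RC.tow C (a * (K + 2 * d + 1)) ≤ N := by
    refine le_trans (RC.tow_mono C _ _ ?_) hN
    rw [mul_assoc]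
    apply Nat.mul_le_mul_left
    nlinarith [Nat.zero_le (d * K)]
  obtain ⟨T, hTN, hTK, hom⟩ := ha N (K + 2 * d) ((w' + 1) * P.len) P.cell hle
  obtain ⟨σ, hσ⟩ := swaps_of_hom hd (w := 2 * w) hl (Q := Fin w' ⊕ Fin w')
    (by rw [Fintype.card_sum, Fintype.card_fin]; omega) P.mach P.cell
    (fun t ht c hc => P.occ_le hP ht c hc) T hTN hTK hom
  have hKN : K ≤ N := by
    have := Finset.card_le_card hTN
    rw [hTK, Finset.card_range] at this
    omega
  exact hmain N K σ _ hKN hσ F S (fun A => by rw [hF, P.accepts_iff]) hbig hsmall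

/-- width, number of reads and inverse density may tend to infinity -/
theorem growing (d : ℕ) (hd : 1 ≤ d) : ∃ f : ℕ → ℕ, Filter.Tendsto f Filter.atTop Filter.atTop ∧
    ∀ (N : ℕ) (G : Fin (f N) → Finset (Finset (Fin d → Fin N)))
      (S : Finset (Finset (Fin d → Fin N))), (∀ i, Decided d N (f N) (f N) (G i)) →
      (∀ A, A ∈ S ↔ ∃ i, A ∈ G i) → 2 ^ (N ^ d) ≤ f N * #S → Good S := by
  classical
  obtain ⟨C, hC⟩ := core d hd
  have hk : ∀ k : ℕ, ∃ N₀ : ℕ, ∀ N, N₀ ≤ N → ∀ (G : Fin k → Finset (Finset (Fin d → Fin N)))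
      (S : Finset (Finset (Fin d → Fin N))), (∀ i, Decided d N k k (G i)) →
      (∀ A, A ∈ S ↔ ∃ i, A ∈ G i) → 2 ^ (N ^ d) ≤ k * #S → Good S := by
    intro k
    obtain ⟨η, lam, a, hη, hlam, hlam1, h⟩ := hC k k
    obtain ⟨K, hK⟩ := exists_pow_lt_of_lt_one (show (0 : ℝ) < 1 / (8 * ((k : ℝ) * k + 1)) by
      positivity) hlam1
    refine ⟨RC.tow C (a * (K + 1)), ?_⟩
    intro N hN G S hG hS hcard
    have hex : ∃ i, 8 * lam ^ K * 2 ^ (N ^ d) < (#(G i) : ℝ) := by
      by_contra hno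
      push Not at hno
      have h1 : S = Finset.univ.biUnion G := by
        ext A
        rw [hS, Finset.mem_biUnion]
        simp
      have h2 : (#S : ℝ) ≤ ∑ i, (#(G i) : ℝ) := by
        rw [h1]
        exact_mod_cast Finset.card_biUnion_le
      have h3 : ∑ i, (#(G i) : ℝ) ≤ ∑ _i : Fin k, 8 * lam ^ K * 2 ^ (N ^ d) :=
        Finset.sum_le_sum fun i _ => hno i
      rw [Finset.sum_const, Finset.card_univ, Fintype.card_fin, nsmul_eq_mul] at h3
      have h4 : (2 : ℝ) ^ (N ^ d) ≤ k * #S := by exact_mod_cast hcard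
      have h5 : (k : ℝ) * #S ≤ k * (k * (8 * lam ^ K * 2 ^ (N ^ d))) :=
        mul_le_mul_of_nonneg_left (h2.trans h3) (Nat.cast_nonneg k)
      have hpos : (0 : ℝ) < 2 ^ (N ^ d) := by positivity
      have h6 : (1 : ℝ) ≤ k * k * (8 * lam ^ K) := by
        have h7 : (2 : ℝ) ^ (N ^ d) * 1 ≤ 2 ^ (N ^ d) * (k * k * (8 * lam ^ K)) := by
          rw [mul_one]
          refine (h4.trans h5).trans (le_of_eq ?_)
          ring
        exact le_of_mul_le_mul_left h7 hpos
      have h8 : (k : ℝ) * k * (8 * lam ^ K) ≤ k * k * (8 * (1 / (8 * ((k : ℝ) * k + 1)))) := by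
        have := hK.le
        gcongr
      have h9 : (k : ℝ) * k * (8 * (1 / (8 * ((k : ℝ) * k + 1)))) < 1 := by
        have h10 : (0 : ℝ) < (k : ℝ) * k + 1 := by positivity
        have h11 : (k : ℝ) * k * (8 * (1 / (8 * ((k : ℝ) * k + 1)))) =
            (k * k) / ((k : ℝ) * k + 1) := by field_simp
        rw [h11, div_lt_one h10]
        linarith
      linarith
    obtain ⟨i, hi⟩ := hex
    refine h N K (G i) S hN (hG i) hi ?_
    have h1 : G i \ S = ∅ := Finset.sdiff_eq_empty_iff_subset.2 fun A hA => (hS A).2 ⟨i, hA⟩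
    rw [h1, Finset.card_empty, Nat.cast_zero]
    positivity
  choose N₀ hN₀ using hk
  refine ⟨fun N => Nat.findGreatest (fun k => N₀ k ≤ N) N, ?_, ?_⟩
  · rw [Filter.tendsto_atTop_atTop]
    intro k
    refine ⟨max k (N₀ k), fun N hN => ?_⟩
    exact Nat.le_findGreatest ((le_max_left _ _).trans hN) ((le_max_right _ _).trans hN)
  · intro N G S hG hS hcard
    by_cases h0 : Nat.findGreatest (fun k => N₀ k ≤ N) N = 0
    · simp only at hcard
      rw [h0, zero_mul] at hcard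
      exact absurd hcard (by simp)
    · have h1 : N₀ (Nat.findGreatest (fun k => N₀ k ≤ N) N) ≤ N :=
        Nat.findGreatest_of_ne_zero (P := fun k => N₀ k ≤ N) (n := N) rfl h0
      exact hN₀ _ N h1 G S hG hS hcard

end Pool.Agent.Y613.RA
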